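import Pool.Agent.H708R3.SC6

/-!
Andre's supercharacter theory of `U_n(F_q)` is the coarsest supercharacter theory containing all
single-box supercharacters as irreducible characters (for every `n` and every `q`).
-/

noncomputable section

namespace Pool.Agent.Results.MP_1f99fc_al.AndreCoarsest

open Pool.Agent.H708R3.SC

/-- `(X, K)` is the coarsest supercharacter theory of `G` containing every member of the set `S`
of irreducible characters: it is a supercharacter theory, every member of `S` is a block of `X` by
itself, and both partitions of any other supercharacter theory with this property refine `X` and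
`K`. -/
structure IsCoarsest (G : Type) [Group G] (S : Set (G → ℂ)) (X : Set (Set (G → ℂ)))
    (K : Set (Set G)) : Prop where
  isSCT : IsSCT G X K
  contains : ∀ chi ∈ S, {chi} ∈ X
  coarsest : ∀ (X' : Set (Set (G → ℂ))) (K' : Set (Set G)), IsSCT G X' K' →
    (∀ chi ∈ S, {chi} ∈ X') →
    (∀ k' ∈ K', ∃ k ∈ K, k' ⊆ k) ∧ (∀ x' ∈ X', ∃ x ∈ X, x' ⊆ x)

/-- For every `n ≥ 2`, every finite field `F` and every nontrivial `theta`: each single box
`(i, j)` with label `a ≠ 0` has a single-box irreducible character, and Andre's theory is the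
coarsest supercharacter theory of `U_n(F)` containing all single-box irreducible characters;
it is the only pair of partitions with this property. -/
theorem result (n : ℕ) (_hn : 2 ≤ n) (F : Type) [Field F] [Finite F] (theta : AddChar F ℂ)
    (ht : theta ≠ 1) :
    (∀ i j : Fin n, i < j → ∀ a : F, a ≠ 0 → ∃! chi : unitri n F → ℂ, IsBoxChar theta i j a chi) ∧
    IsCoarsest (unitri n F)
      {chi | ∃ (i j : Fin n) (a : F), i < j ∧ a ≠ 0 ∧ IsBoxChar theta i j a chi}
      (andreX n theta) (andreK n F) ∧
    (∀ (X : Set (Set (unitri n F → ℂ))) (K : Set (Set (unitri n F))),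
      IsCoarsest (unitri n F)
        {chi | ∃ (i j : Fin n) (a : F), i < j ∧ a ≠ 0 ∧ IsBoxChar theta i j a chi} X K →
      X = andreX n theta ∧ K = andreK n F) := by
  have hmain : IsCoarsest (unitri n F)
      {chi | ∃ (i j : Fin n) (a : F), i < j ∧ a ≠ 0 ∧ IsBoxChar theta i j a chi}
      (andreX n theta) (andreK n F) := by
    refine ⟨andre_isSCT ht, ?_, ?_⟩
    · rintro chi ⟨i, j, a, _, _, h⟩
      exact boxChar_mem ht h
    · intro X' K' hT hS
      have hK : ∀ k' ∈ K', ∃ k ∈ andreK n F, k' ⊆ k := by
        intro k' hk'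
        have hne : k'.Nonempty := by
          by_contra hc
          rw [Set.not_nonempty_iff_eq_empty] at hc
          exact hT.K_part.1 (hc ▸ hk')
        obtain ⟨g, hg⟩ := hne
        refine ⟨superclass g, ⟨g, rfl⟩, ?_⟩
        intro g' hg'
        apply separate ht
        intro i j hij a ha
        obtain ⟨chi, hchi⟩ := exists_boxChar (n := n) hij ht ha
        obtain ⟨hirr, c, _, hc⟩ := hchi
        have hb : ({chi} : Set (unitri n F → ℂ)) ∈ X' :=
          hS chi ⟨i, j, a, hij, ha, hirr, c, by assumption, hc⟩
        have h1 := hT.const _ hb k' hk' g hg g' hg'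
        have hs : ∀ x, sigma ({chi} : Set (unitri n F → ℂ)) x = chi 1 * chi x := by
          intro x
          unfold sigma
          rw [finsum_mem_singleton]
        rw [hs, hs] at h1
        rw [hc, hc, mul_left_cancel₀ (irr_one_ne hirr) h1]
      exact ⟨hK, X_refine ht hT hK⟩
  refine ⟨?_, hmain, ?_⟩
  · intro i j hij a ha
    obtain ⟨chi, hchi⟩ := exists_boxChar (n := n) hij ht ha
    refine ⟨chi, hchi, ?_⟩
    intro psi hpsi
    have h1 := boxChar_mem ht hchi
    have h2 := boxChar_mem ht hpsi
    -- both lie in the block of constituents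
    obtain ⟨lam, hl⟩ := (mem_andreX ht _).mp h1
    have key : ∀ phi : unitri n F → ℂ, IsBoxChar theta i j a phi →
        phi ∈ Xset theta (boxDual i j a) := by
      rintro phi ⟨hirr, c, hc, hg⟩
      refine ⟨hirr, ?_⟩
      have he : superchar theta (boxDual i j a) = (c : ℂ) • phi := by
        funext g
        exact hg g
      rw [he, Pool.Agent.Helper884.IC.B_smul_left, Pool.Agent.Helper884.IC.B_irr hirr hirr,
        if_pos rfl, mul_one]
      exact_mod_cast hc.ne'
    have h3 := box_single hij ht ha (key chi hchi)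
    have h4 := key psi hpsi
    rw [h3] at h4
    exact h4
  · intro X K h
    -- both theories are coarsest, so the partitions coincide
    have hA := hmain.coarsest X K h.isSCT h.contains
    have hB := h.coarsest _ _ hmain.isSCT hmain.contains
    constructor
    · ext x
      constructor
      · intro hx
        obtain ⟨y, hy, hxy⟩ := hA.2 x hx
        obtain ⟨x', hx', hyx'⟩ := hB.2 y hy
        obtain ⟨psi, hp⟩ := h.isSCT.X_nonempty x hx
        obtain ⟨z, _, hz⟩ := h.isSCT.X_part psi (h.isSCT.X_irr x hx psi hp)
        have e1 : x = x' := (hz x ⟨hx, hp⟩).trans (hz x' ⟨hx', hyx' (hxy hp)⟩).symm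
        have e2 : x = y := Set.Subset.antisymm hxy (e1 ▸ hyx')
        rw [e2]
        exact hy
      · intro hx
        obtain ⟨y, hy, hxy⟩ := hB.2 x hx
        obtain ⟨x', hx', hyx'⟩ := hA.2 y hy
        obtain ⟨psi, hp⟩ := hmain.isSCT.X_nonempty x hx
        obtain ⟨z, _, hz⟩ := hmain.isSCT.X_part psi (hmain.isSCT.X_irr x hx psi hp)
        have e1 : x = x' := (hz x ⟨hx, hp⟩).trans (hz x' ⟨hx', hyx' (hxy hp)⟩).symm
        have e2 : x = y := Set.Subset.antisymm hxy (e1 ▸ hyx')
        rw [e2]
        exact hy
    · ext x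
      constructor
      · intro hx
        obtain ⟨y, hy, hxy⟩ := hA.1 x hx
        obtain ⟨x', hx', hyx'⟩ := hB.1 y hy
        have hne : x.Nonempty := by
          by_contra hc
          rw [Set.not_nonempty_iff_eq_empty] at hc
          exact h.isSCT.K_part.1 (hc ▸ hx)
        obtain ⟨g, hg⟩ := hne
        obtain ⟨z, _, hz⟩ := h.isSCT.K_part.2 g
        have e1 : x = x' := (hz x ⟨hx, hg⟩).trans (hz x' ⟨hx', hyx' (hxy hg)⟩).symm
        have e2 : x = y := Set.Subset.antisymm hxy (e1 ▸ hyx')
        rw [e2]
        exact hy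
      · intro hx
        obtain ⟨y, hy, hxy⟩ := hB.1 x hx
        obtain ⟨x', hx', hyx'⟩ := hA.1 y hy
        have hne : x.Nonempty := by
          by_contra hc
          rw [Set.not_nonempty_iff_eq_empty] at hc
          exact hmain.isSCT.K_part.1 (hc ▸ hx)
        obtain ⟨g, hg⟩ := hne
        obtain ⟨z, _, hz⟩ := hmain.isSCT.K_part.2 g
        have e1 : x = x' := (hz x ⟨hx, hg⟩).trans (hz x' ⟨hx', hyx' (hxy hg)⟩).symm
        have e2 : x = y := Set.Subset.antisymm hxy (e1 ▸ hyx')
        rw [e2]
        exact hy

end Pool.Agent.Results.MP_1f99fc_al.AndreCoarsest
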